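import Pool.Agent.Helper18.Dub.Bridge

/-!
# Semisimplicity is detected on the monodromy-invariant part of quantum cohomology
-/

open Pool.Agent.Helper18.Dub

namespace Pool.Agent.Results.MP_78bf89_ag.InvariantPart

/-- Let `X` be a Fano manifold whose cohomology has a homogeneous basis indexed by `κ ⊕ ν` such
that the projection onto the span `H'` of the classes `φ_a`, `a ∈ κ`, along the span of the other
classes is a complex combination of symmetries of `X` fixing `H'`. Then quantum cohomology at the
generic point of `H'` is semisimple iff its subalgebra generated by `H'` is, the same holds at the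
origin, and if one of these subalgebras is semisimple then big quantum cohomology is generically
semisimple. -/
theorem result {κ ν : Type} [Fintype κ] [DecidableEq κ] [Fintype ν] [DecidableEq ν]
    (X : FanoGW (κ ⊕ ν)) {o : κ} (ho : X.one = Sum.inl o)
    (hspan : FanoGW.proj κ ν ∈ Submodule.span ℂ {g | X.IsSymmetry g}) :
    (IsSemisimpleRing (matAlg X.resMat) ↔
      IsSemisimpleRing (matAlg fun a : κ => X.resMat (Sum.inl a))) ∧
    (IsSemisimpleRing (Algebra.adjoin ℂ (Set.range X.smallMat)) ↔
      IsSemisimpleRing (Algebra.adjoin ℂ (Set.range fun a : κ => X.smallMat (Sum.inl a)))) ∧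
    (IsSemisimpleRing (matAlg fun a : κ => X.resMat (Sum.inl a)) → X.IsGenericallySemisimple) ∧
    (IsSemisimpleRing (Algebra.adjoin ℂ (Set.range fun a : κ => X.smallMat (Sum.inl a))) →
      X.IsGenericallySemisimple) := by
  rw [X.matAlg_res_iff, X.matAlg_res_inl_iff, ← X.isSemisimple_small_iff, ← X.small_inl_iff,
    X.isGenericallySemisimple_iff, ← FanoGW.generic_iff_invPart ho hspan,
    ← FanoGW.small_iff_invPart ho hspan]
  exact ⟨Iff.rfl, Iff.rfl, fun h => X.big_of_generic h,
    fun h => X.QH.genericallySemisimple_of_specialization _ h⟩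

end Pool.Agent.Results.MP_78bf89_ag.InvariantPart
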